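import Mathlib

/-!
# Small difference sets: definitions (project TA, second part, MP_49610d_nt)

The theorem: `|G| = 4 k - 1`, `|S| = k`, `|S - S| = 2 k - 1` imply that `S` is an arithmetic
progression whose difference generates `G` (a special case of Kemperman's theorem; proof with the
`2`-atoms of Hamidoune).
-/

set_option autoImplicit false

namespace Pool.Agent.TA.V

open scoped Pointwise

variable {G : Type*} [AddCommGroup G] [Fintype G] [DecidableEq G]

/-- The translate `A + t`. -/
def tr (t : G) (A : Finset G) : Finset G := A.image (· + t)

/-- The union of the cosets of `P` which meet `A`. -/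
noncomputable def sat (P : AddSubgroup G) (A : Finset G) : Finset G := by
  classical exact Finset.univ.filter fun x => ∃ a ∈ A, x - a ∈ P

/-- `A` has at least two elements and `A - S` misses at least two elements. -/
def Adm (S A : Finset G) : Prop := 2 ≤ A.card ∧ (A - S).card + 2 ≤ Fintype.card G

/-- `A` is a `2`-atom for `S`: it minimises `|A - S| - |A|` over the admissible sets and has the
smallest number of elements among the minimisers. -/
structure Atom (S A : Finset G) : Prop where
  adm : Adm S A
  min : ∀ B, Adm S B → (A - S).card + B.card ≤ (B - S).card + A.card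
  small : ∀ B, Adm S B → (B - S).card + A.card = (A - S).card + B.card → A.card ≤ B.card

/-- All nonzero differences of elements of `A` are represented once. -/
def Sid (A : Finset G) : Prop := ∀ t : G, t ≠ 0 → (A ∩ tr t A).card ≤ 1

/-- The extremal sets: `|G| = 4 k - 1`, `|S| = k`, `|S - S| = 2 k - 1`, `k ≥ 2`. -/
structure Ext (k : ℕ) (S : Finset G) : Prop where
  two : 2 ≤ k
  cardG : Fintype.card G + 1 = 4 * k
  cardS : S.card = k
  cardR : (S - S).card + 1 = 2 * k

omit [Fintype G] in
theorem mem_tr {t : G} {A : Finset G} {x : G} : x ∈ tr t A ↔ x - t ∈ A := by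
  unfold tr
  rw [Finset.mem_image]
  constructor
  · rintro ⟨a, ha, rfl⟩
    rwa [add_sub_cancel_right]
  · intro h
    exact ⟨x - t, h, by simp⟩

omit [Fintype G] in
theorem card_tr (t : G) (A : Finset G) : (tr t A).card = A.card :=
  Finset.card_image_of_injective A (add_left_injective t)

theorem mem_sat {P : AddSubgroup G} {A : Finset G} {x : G} : x ∈ sat P A ↔ ∃ a ∈ A, x - a ∈ P := by
  classical
  unfold sat
  simp

end Pool.Agent.TA.V
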